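import Mathlib
import Pool.Agent.W500.CS.Stm

/-!
# Project CQ, part KAP: choice of the twist
-/

set_option autoImplicit false

open Set Filter Topology Metric

namespace Pool.Agent.W428.CQ.KAP

open Pool.Agent.W500.CS

/-- the slope of the branch `F` at the point with twisted polar coordinates `x` -/
noncomputable def sl (κ φ₀ : ℝ) (K : ℕ) (F : ℂ → ℂ) (x : ℝ × ℝ) : ℝ :=
  (F (Gm κ φ₀ x.1 x.2) / Gm κ φ₀ x.1 x.2 ^ K * ((κ + Complex.I) * Gm κ φ₀ x.1 x.2)).re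

theorem box {φ₀ : ℝ} {P : ℝ × ℝ → Prop} (h : ∀ᶠ x in 𝓝[>] (0:ℝ) ×ˢ 𝓝 φ₀, P x) :
    ∀ᶠ t in 𝓝[>] (0:ℝ), ∀ q ∈ Ioo 0 t, ∀ φ ∈ Icc (φ₀ - t) (φ₀ + t), P (q, φ) := by
  obtain ⟨pa, ha, pb, hb, hab⟩ := Filter.eventually_prod_iff.1 h
  obtain ⟨u, hu, hu'⟩ := mem_nhdsGT_iff_exists_Ioo_subset.1 ha
  obtain ⟨v, hv, hv'⟩ := Metric.eventually_nhds_iff.1 hb
  have hu0 : (0:ℝ) < u := hu
  have : Ioo (0:ℝ) (min u v) ∈ 𝓝[>] (0:ℝ) := Ioo_mem_nhdsGT (lt_min hu0 hv)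
  filter_upwards [this] with t ht q hq φ hφ
  have h1 : t < u := lt_of_lt_of_le ht.2 (min_le_left _ _)
  have h2 : t < v := lt_of_lt_of_le ht.2 (min_le_right _ _)
  refine hab (hu' ⟨hq.1, hq.2.trans h1⟩) (hv' ?_)
  rw [Real.dist_eq, abs_lt]
  constructor
  · linarith [hφ.1]
  · linarith [hφ.2]

theorem gm_eq (κ φ₀ q φ : ℝ) :
    Gm κ φ₀ q φ = ((q * Real.exp (κ * (φ - φ₀)) : ℝ) : ℂ) * Complex.exp (Complex.I * φ) := by
  unfold Gm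
  rw [Complex.exp_add]
  push_cast
  ring

theorem slope_eq {κ r : ℝ} {u hs Fs : ℂ} {m K : ℕ} (hF : Fs = ((r:ℂ) * u) ^ m * hs) (hr : r ≠ 0)
    (hu : u ≠ 0) :
    (Fs / ((r:ℂ) * u) ^ K * ((κ + Complex.I) * ((r:ℂ) * u))).re =
      r ^ (m + 1) / r ^ K * (u ^ (m + 1) / u ^ K * ((κ + Complex.I) * hs)).re := by
  have hr' : (r:ℂ) ≠ 0 := by exact_mod_cast hr
  have : Fs / ((r:ℂ) * u) ^ K * ((κ + Complex.I) * ((r:ℂ) * u)) =
      ((r ^ (m + 1) / r ^ K : ℝ) : ℂ) * (u ^ (m + 1) / u ^ K * ((κ + Complex.I) * hs)) := by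
    rw [hF, mul_pow, mul_pow]
    push_cast
    rw [pow_succ, pow_succ]
    field_simp
  rw [this, Complex.re_ofReal_mul]

theorem gm_tendsto (κ φ₀ : ℝ) :
    Tendsto (fun x : ℝ × ℝ => Gm κ φ₀ x.1 x.2) (𝓝[>] (0:ℝ) ×ˢ 𝓝 φ₀) (𝓝[≠] 0) := by
  rw [tendsto_nhdsWithin_iff]
  constructor
  · have hc : Continuous (fun x : ℝ × ℝ => Gm κ φ₀ x.1 x.2) := by
      unfold Gm
      fun_prop
    have h1 : Tendsto (fun x : ℝ × ℝ => Gm κ φ₀ x.1 x.2) (𝓝 (0, φ₀)) (𝓝 0) := by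
      have := hc.tendsto (0, φ₀)
      simpa [Gm] using this
    refine h1.mono_left ?_
    rw [nhds_prod_eq]
    exact Filter.prod_mono nhdsWithin_le_nhds le_rfl
  · have h2 : ∀ᶠ x : ℝ × ℝ in 𝓝[>] (0:ℝ) ×ˢ 𝓝 φ₀, 0 < x.1 :=
      (eventually_mem_nhdsWithin (a := (0:ℝ)) (s := Ioi 0)).prod_inl (𝓝 φ₀)
    filter_upwards [h2] with x hx
    have : (x.1 : ℂ) ≠ 0 := by exact_mod_cast hx.ne'
    simp [Gm, this]

theorem pos_ev (φ₀ : ℝ) : ∀ᶠ x : ℝ × ℝ in 𝓝[>] (0:ℝ) ×ˢ 𝓝 φ₀, 0 < x.1 :=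
  (eventually_mem_nhdsWithin (a := (0:ℝ)) (s := Ioi 0)).prod_inl (𝓝 φ₀)

/-- the radius tends to `0` -/
theorem r_tendsto (κ φ₀ : ℝ) :
    ∀ᶠ x : ℝ × ℝ in 𝓝[>] (0:ℝ) ×ˢ 𝓝 φ₀, x.1 * Real.exp (κ * (x.2 - φ₀)) < 1 := by
  have hc : Continuous (fun x : ℝ × ℝ => x.1 * Real.exp (κ * (x.2 - φ₀))) := by fun_prop
  have h1 : Tendsto (fun x : ℝ × ℝ => x.1 * Real.exp (κ * (x.2 - φ₀))) (𝓝 (0, φ₀)) (𝓝 0) := by
    have := hc.tendsto (0, φ₀)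
    simpa using this
  have h2 : Tendsto (fun x : ℝ × ℝ => x.1 * Real.exp (κ * (x.2 - φ₀)))
      (𝓝[>] (0:ℝ) ×ˢ 𝓝 φ₀) (𝓝 0) := by
    refine h1.mono_left ?_
    rw [nhds_prod_eq]
    exact Filter.prod_mono nhdsWithin_le_nhds le_rfl
  exact h2.eventually (gt_mem_nhds one_pos)

/-- the limit of the normalised slope -/
noncomputable def Lam (φ₀ : ℝ) (m K : ℕ) (h : ℂ → ℂ) (κ : ℝ) : ℝ :=
  (Complex.exp (Complex.I * φ₀) ^ (m + 1) / Complex.exp (Complex.I * φ₀) ^ K *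
    ((κ + Complex.I) * h 0)).re

theorem lam_fin (φ₀ : ℝ) (m K : ℕ) (h : ℂ → ℂ) (h0 : h 0 ≠ 0) :
    {κ : ℝ | Lam φ₀ m K h κ = 0}.Finite := by
  set w : ℂ := Complex.exp (Complex.I * φ₀) ^ (m + 1) / Complex.exp (Complex.I * φ₀) ^ K * h 0
    with hw
  have hw0 : w ≠ 0 := by
    rw [hw]
    refine mul_ne_zero (div_ne_zero ?_ ?_) h0
    · exact pow_ne_zero _ (Complex.exp_ne_zero _)
    · exact pow_ne_zero _ (Complex.exp_ne_zero _)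
  have hL : ∀ κ : ℝ, Lam φ₀ m K h κ = κ * w.re - w.im := by
    intro κ
    have : Complex.exp (Complex.I * φ₀) ^ (m + 1) / Complex.exp (Complex.I * φ₀) ^ K *
        ((κ + Complex.I) * h 0) = (κ + Complex.I) * w := by
      rw [hw]; ring
    unfold Lam
    rw [this]
    simp [Complex.mul_re]
  refine (Set.finite_singleton (w.im / w.re)).subset ?_
  intro κ hκ
  have h1 : κ * w.re - w.im = 0 := by rw [← hL]; exact hκ
  have h2 : w.re ≠ 0 := by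
    intro h3
    rw [h3] at h1
    apply hw0
    apply Complex.ext
    · simpa using h3
    · simpa using h1
  rw [Set.mem_singleton_iff, eq_div_iff h2]
  linarith

theorem key (κ φ₀ : ℝ) (m K : ℕ) (F h : ℂ → ℂ) (hh : ContinuousAt h 0)
    (hF : ∀ᶠ s in 𝓝 (0:ℂ), F s = s ^ m * h s) :
    ∃ T : ℝ × ℝ → ℝ, Tendsto T (𝓝[>] (0:ℝ) ×ˢ 𝓝 φ₀) (𝓝 (Lam φ₀ m K h κ)) ∧
      ∀ᶠ x in 𝓝[>] (0:ℝ) ×ˢ 𝓝 φ₀, ∃ ρ : ℝ, 0 < ρ ∧ (m < K → 1 ≤ ρ) ∧ sl κ φ₀ K F x = ρ * T x := by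
  refine ⟨fun x => (Complex.exp (Complex.I * x.2) ^ (m + 1) / Complex.exp (Complex.I * x.2) ^ K *
    ((κ + Complex.I) * h (Gm κ φ₀ x.1 x.2))).re, ?_, ?_⟩
  · unfold Lam
    refine (Complex.continuous_re.tendsto _).comp ?_
    have hu : Tendsto (fun x : ℝ × ℝ => Complex.exp (Complex.I * (x.2 : ℂ)))
        (𝓝[>] (0:ℝ) ×ˢ 𝓝 φ₀) (𝓝 (Complex.exp (Complex.I * φ₀))) := by
      have hc : Continuous (fun y : ℝ => Complex.exp (Complex.I * (y : ℂ))) := by fun_prop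
      exact (hc.tendsto φ₀).comp tendsto_snd
    have hs : Tendsto (fun x : ℝ × ℝ => h (Gm κ φ₀ x.1 x.2)) (𝓝[>] (0:ℝ) ×ˢ 𝓝 φ₀) (𝓝 (h 0)) :=
      hh.tendsto.comp ((gm_tendsto κ φ₀).mono_right nhdsWithin_le_nhds)
    exact ((hu.pow _).div (hu.pow _) (pow_ne_zero _ (Complex.exp_ne_zero _))).mul
      (hs.const_mul _)
  · have h1 := ((gm_tendsto κ φ₀).mono_right nhdsWithin_le_nhds).eventually hF
    filter_upwards [h1, pos_ev φ₀, r_tendsto κ φ₀] with x hx hpos hr1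
    set r : ℝ := x.1 * Real.exp (κ * (x.2 - φ₀)) with hr
    have hr0 : 0 < r := mul_pos hpos (Real.exp_pos _)
    refine ⟨r ^ (m + 1) / r ^ K, by positivity, ?_, ?_⟩
    · intro hmK
      rw [le_div_iff₀ (by positivity), one_mul]
      exact pow_le_pow_of_le_one hr0.le hr1.le hmK
    · unfold sl
      have hg := gm_eq κ φ₀ x.1 x.2
      rw [← hr] at hg
      have hx' : F (Gm κ φ₀ x.1 x.2) =
          ((r:ℂ) * Complex.exp (Complex.I * x.2)) ^ m * h (Gm κ φ₀ x.1 x.2) := by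
        rw [hx]
        conv_lhs => rw [hg]
        rw [hg]
      have := slope_eq (κ := κ) (K := K) hx' hr0.ne' (Complex.exp_ne_zero _)
      rw [← hg] at this
      exact this

/-- sign of the slope -/
def PP (κ φ₀ : ℝ) (K : ℕ) (F : ℂ → ℂ) : Prop :=
  (∀ᶠ x in 𝓝[>] (0:ℝ) ×ˢ 𝓝 φ₀, 0 < sl κ φ₀ K F x) ∨
    (∀ᶠ x in 𝓝[>] (0:ℝ) ×ˢ 𝓝 φ₀, sl κ φ₀ K F x < 0)

/-- bounded, or slope away from `0` -/
def QQ (κ φ₀ : ℝ) (K : ℕ) (F : ℂ → ℂ) : Prop :=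
  (∃ M, ∀ᶠ s in 𝓝[≠] (0 : ℂ), ‖F s / s ^ K‖ ≤ M) ∨
    ∃ c > 0, (∀ᶠ x in 𝓝[>] (0:ℝ) ×ˢ 𝓝 φ₀, c ≤ sl κ φ₀ K F x) ∨
      (∀ᶠ x in 𝓝[>] (0:ℝ) ×ˢ 𝓝 φ₀, sl κ φ₀ K F x ≤ -c)

theorem order (F : ℂ → ℂ) (hF : AnalyticAt ℂ F 0) (h0 : ¬ ∀ᶠ s in 𝓝 (0:ℂ), F s = 0) :
    ∃ (m : ℕ) (h : ℂ → ℂ), ContinuousAt h 0 ∧ h 0 ≠ 0 ∧ ∀ᶠ s in 𝓝 (0:ℂ), F s = s ^ m * h s := by
  obtain ⟨m, h, h1, h2, h3⟩ := hF.exists_eventuallyEq_pow_smul_nonzero_iff.2 h0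
  refine ⟨m, h, h1.continuousAt, h2, ?_⟩
  filter_upwards [h3] with s hs
  simpa using hs

theorem PP_fin (φ₀ : ℝ) (K : ℕ) (F : ℂ → ℂ) (hF : AnalyticAt ℂ F 0)
    (h0 : ¬ ∀ᶠ s in 𝓝 (0:ℂ), F s = 0) : {κ : ℝ | ¬ PP κ φ₀ K F}.Finite := by
  obtain ⟨m, h, h1, h2, h3⟩ := order F hF h0
  refine (lam_fin φ₀ m K h h2).subset ?_
  intro κ hκ
  by_contra hne
  apply hκ
  have hne' : Lam φ₀ m K h κ ≠ 0 := hne
  obtain ⟨T, hT, hev⟩ := key κ φ₀ m K F h h1 h3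
  rcases lt_or_gt_of_ne hne' with hlt | hgt
  · right
    filter_upwards [hev, hT.eventually (gt_mem_nhds hlt)] with x ⟨ρ, hρ, _, he⟩ hTx
    rw [he]
    exact mul_neg_of_pos_of_neg hρ hTx
  · left
    filter_upwards [hev, hT.eventually (lt_mem_nhds hgt)] with x ⟨ρ, hρ, _, he⟩ hTx
    rw [he]
    exact mul_pos hρ hTx

theorem QQ_fin (φ₀ : ℝ) (K : ℕ) (F : ℂ → ℂ) (hF : AnalyticAt ℂ F 0) :
    {κ : ℝ | ¬ QQ κ φ₀ K F}.Finite := by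
  by_cases h0 : ∀ᶠ s in 𝓝 (0:ℂ), F s = 0
  · refine Set.finite_empty.subset ?_
    intro κ hκ
    exfalso
    apply hκ
    left
    refine ⟨0, ?_⟩
    filter_upwards [h0.filter_mono nhdsWithin_le_nhds] with s hs
    simp [hs]
  · obtain ⟨m, h, h1, h2, h3⟩ := order F hF h0
    by_cases hmK : m < K
    · refine (lam_fin φ₀ m K h h2).subset ?_
      intro κ hκ
      by_contra hne
      apply hκ
      have hne' : Lam φ₀ m K h κ ≠ 0 := hne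
      obtain ⟨T, hT, hev⟩ := key κ φ₀ m K F h h1 h3
      right
      rcases lt_or_gt_of_ne hne' with hlt | hgt
      · refine ⟨-(Lam φ₀ m K h κ / 2), by linarith, Or.inr ?_⟩
        have hlt2 : Lam φ₀ m K h κ < Lam φ₀ m K h κ / 2 := by linarith
        filter_upwards [hev, hT.eventually (gt_mem_nhds hlt2)] with x ⟨ρ, hρ, hρ1, he⟩ hTx
        rw [he]
        have := hρ1 hmK
        nlinarith
      · refine ⟨Lam φ₀ m K h κ / 2, by linarith, Or.inl ?_⟩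
        have hlt2 : Lam φ₀ m K h κ / 2 < Lam φ₀ m K h κ := by linarith
        filter_upwards [hev, hT.eventually (lt_mem_nhds hlt2)] with x ⟨ρ, hρ, hρ1, he⟩ hTx
        rw [he]
        have := hρ1 hmK
        nlinarith
    · push Not at hmK
      refine Set.finite_empty.subset ?_
      intro κ hκ
      exfalso
      apply hκ
      left
      have hc : ContinuousAt (fun s : ℂ => ‖s ^ (m - K) * h s‖) 0 :=
        ((continuousAt_id.pow _).mul h1).norm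
      refine ⟨‖(0:ℂ) ^ (m - K) * h 0‖ + 1, ?_⟩
      have h4 : ∀ᶠ s in 𝓝 (0:ℂ), ‖s ^ (m - K) * h s‖ < ‖(0:ℂ) ^ (m - K) * h 0‖ + 1 :=
        hc.tendsto.eventually (gt_mem_nhds (by linarith))
      filter_upwards [h3.filter_mono nhdsWithin_le_nhds, h4.filter_mono nhdsWithin_le_nhds,
        self_mem_nhdsWithin] with s hs1 hs2 hs3
      have hs0 : s ≠ 0 := hs3
      have : F s / s ^ K = s ^ (m - K) * h s := by
        rw [hs1, div_eq_iff (pow_ne_zero _ hs0)]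
        calc s ^ m * h s = s ^ (m - K + K) * h s := by rw [Nat.sub_add_cancel hmK]
          _ = s ^ (m - K) * h s * s ^ K := by rw [pow_add]; ring
      rw [this]
      exact hs2.le

theorem main : S_KAP := by
  intro r R K b hR hb hne φ₀
  have hball : ball (0:ℂ) R ∈ 𝓝 (0:ℂ) := Metric.ball_mem_nhds _ hR
  have han : ∀ i, AnalyticAt ℂ (b i) 0 := fun i => (hb i).analyticAt hball
  have hd : ∀ i j, i ≠ j → ¬ ∀ᶠ s in 𝓝 (0:ℂ), (b i - b j) s = 0 := by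
    intro i j hij hev
    have h1 : ∀ᶠ s in 𝓝[≠] (0:ℂ), (b i - b j) s = 0 := hev.filter_mono nhdsWithin_le_nhds
    have h2 : ∀ᶠ s in 𝓝[≠] (0:ℂ), s ∈ ball (0:ℂ) R := mem_nhdsWithin_of_mem_nhds hball
    have h3 : ∀ᶠ s in 𝓝[≠] (0:ℂ), s ∈ ({0}ᶜ : Set ℂ) := self_mem_nhdsWithin
    obtain ⟨s, hs1, hs2, hs3⟩ := (h1.and (h2.and h3)).exists
    exact hne i j hij s ⟨hs2, hs3⟩ (sub_eq_zero.1 hs1)
  have hfin : ((⋃ i : Fin r, ⋃ j : Fin r, {κ : ℝ | i ≠ j ∧ ¬ PP κ φ₀ K (b i - b j)}) ∪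
      ⋃ j : Fin r, {κ : ℝ | ¬ QQ κ φ₀ K (b j)}).Finite := by
    refine Set.Finite.union (Set.finite_iUnion fun i => Set.finite_iUnion fun j => ?_)
      (Set.finite_iUnion fun j => QQ_fin φ₀ K (b j) (han j))
    by_cases hij : i = j
    · refine Set.finite_empty.subset ?_
      intro κ hκ
      exact absurd hij hκ.1
    · refine (PP_fin φ₀ K (b i - b j) ((han i).sub (han j)) (hd i j hij)).subset ?_
      intro κ hκ
      exact hκ.2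
  obtain ⟨κ, hκ⟩ := hfin.infinite_compl.nonempty
  simp only [Set.mem_compl_iff, Set.mem_union, Set.mem_iUnion, Set.mem_ofPred_eq, not_or,
    not_exists, not_and, not_not] at hκ
  obtain ⟨hP, hQ⟩ := hκ
  have e1 : ∀ᶠ t in 𝓝[>] (0:ℝ), ∀ q ∈ Ioo 0 t, ∀ φ ∈ Icc (φ₀ - t) (φ₀ + t),
      Gm κ φ₀ q φ ∈ ball (0 : ℂ) R \ {0} := by
    have h1 : ball (0:ℂ) R \ {0} ∈ 𝓝[≠] (0:ℂ) := by
      rw [Set.sdiff_eq]
      exact Filter.inter_mem (mem_nhdsWithin_of_mem_nhds hball) self_mem_nhdsWithin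
    have h2 : ∀ᶠ x : ℝ × ℝ in 𝓝[>] (0:ℝ) ×ˢ 𝓝 φ₀, Gm κ φ₀ x.1 x.2 ∈ ball (0:ℂ) R \ {0} :=
      (gm_tendsto κ φ₀).eventually h1
    exact box h2
  have e2 : ∀ᶠ t in 𝓝[>] (0:ℝ), ∀ i j, i ≠ j →
      (∀ q ∈ Ioo 0 t, ∀ φ ∈ Icc (φ₀ - t) (φ₀ + t), 0 < sl κ φ₀ K (b i - b j) (q, φ)) ∨
      (∀ q ∈ Ioo 0 t, ∀ φ ∈ Icc (φ₀ - t) (φ₀ + t), sl κ φ₀ K (b i - b j) (q, φ) < 0) := by
    rw [Filter.eventually_all]
    intro i
    rw [Filter.eventually_all]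
    intro j
    by_cases hij : i = j
    · exact Filter.Eventually.of_forall fun t h => absurd hij h
    · rcases hP i j hij with h | h
      · filter_upwards [box h] with t ht _
        exact Or.inl ht
      · filter_upwards [box h] with t ht _
        exact Or.inr ht
  have e3 : ∀ᶠ t in 𝓝[>] (0:ℝ), ∀ j, (∃ M, ∀ᶠ s in 𝓝[≠] (0 : ℂ), ‖b j s / s ^ K‖ ≤ M) ∨
      ∃ c > 0, (∀ q ∈ Ioo 0 t, ∀ φ ∈ Icc (φ₀ - t) (φ₀ + t), c ≤ sl κ φ₀ K (b j) (q, φ)) ∨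
        (∀ q ∈ Ioo 0 t, ∀ φ ∈ Icc (φ₀ - t) (φ₀ + t), sl κ φ₀ K (b j) (q, φ) ≤ -c) := by
    rw [Filter.eventually_all]
    intro j
    rcases hQ j with h | ⟨c, hc, h | h⟩
    · exact Filter.Eventually.of_forall fun t => Or.inl h
    · filter_upwards [box h] with t ht
      exact Or.inr ⟨c, hc, Or.inl ht⟩
    · filter_upwards [box h] with t ht
      exact Or.inr ⟨c, hc, Or.inr ht⟩
  have e4 : ∀ᶠ t in 𝓝[>] (0:ℝ), t ∈ Ioo (0:ℝ) 1 := Ioo_mem_nhdsGT one_pos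
  obtain ⟨t, h1, h2, h3, h4⟩ := (e1.and (e2.and (e3.and e4))).exists
  have hsub : ∀ i j q φ, sl κ φ₀ K (b i - b j) (q, φ) =
      sl κ φ₀ K (b i) (q, φ) - sl κ φ₀ K (b j) (q, φ) := by
    intro i j q φ
    unfold sl
    rw [← Complex.sub_re]
    congr 1
    simp only [Pi.sub_apply]
    ring
  refine ⟨κ, t, t, h4.1, h4.2.le, h4.1, h1, ?_, h3⟩
  intro i j hij
  rcases h2 i j hij with h | h
  · right
    intro q hq φ hφ
    have := h q hq φ hφ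
    rw [hsub] at this
    have h5 : sl κ φ₀ K (b j) (q, φ) < sl κ φ₀ K (b i) (q, φ) := by linarith
    exact h5
  · left
    intro q hq φ hφ
    have := h q hq φ hφ
    rw [hsub] at this
    have h5 : sl κ φ₀ K (b i) (q, φ) < sl κ φ₀ K (b j) (q, φ) := by linarith
    exact h5

end Pool.Agent.W428.CQ.KAP
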